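import Pool.Agent.N75.LW.B

/-!
# MP_ffcf77_al, Q1: the answer is negative

There are a word `w` in five letters and a group `G` with a finite symmetric generating set `S`
such that `w` is satisfied by five independent lazy random walks with probability tending to one,
although no subgroup of finite index of `G` (in particular not `G` itself) satisfies `w`.
-/

set_option autoImplicit false

open Filter Topology
open scoped commutatorElement

namespace Pool.Agent.Results.MP_ffcf77_al.LimitOneNotALaw

/-- The position after `n` steps `s 0, …, s (n - 1)` of the walk. -/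
def walk {G : Type} [Group G] {S : Set G} {n : ℕ} (s : Fin n → ↥(insert 1 S : Set G)) : G :=
  (List.ofFn fun k => (s k : G)).prod

/-- The probability `p_n(w)` that `d` independent copies of the lazy random walk with respect to
`S`, stopped at time `n`, satisfy the word `w`: the number of the `d`-tuples of sequences of `n`
steps from `S ∪ {1}` for which `w` takes the value `1`, divided by the number of all such tuples. -/
noncomputable def prob {G : Type} [Group G] (S : Set G) {d : ℕ} (w : FreeGroup (Fin d)) (n : ℕ) :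
    ℝ :=
  (Nat.card {s : Fin d → Fin n → ↥(insert 1 S : Set G) //
    FreeGroup.lift (fun i => walk (s i)) w = 1} : ℝ) /
    (Nat.card (Fin d → Fin n → ↥(insert 1 S : Set G)) : ℝ)

section

open Pool.Agent.N75.LW Pool.Agent.R901.WR

lemma prob_eq (n : ℕ) : prob S w5 n = (DT TT).lawProb w5 n := by
  have h1 : Nat.card {s : Fin 5 → Fin n → ↥(insert 1 S : Set K) //
      FreeGroup.lift (fun i => walk (s i)) w5 = 1} =
      Nat.card {t : Fin 5 → Fin n → Option (SigT TT) //
        FreeGroup.lift (fun i => (List.ofFn fun k => ((t i k).elim 1 (stpT TT) : W)).prod) w5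
          = 1} := by
    refine Nat.card_congr (Equiv.subtypeEquiv
      (Equiv.piCongrRight fun _ => Equiv.piCongrRight fun _ => eS.symm) ?_)
    intro s
    have h2 : ∀ i, ((walk (s i) : K) : W) = (List.ofFn fun k =>
        ((eS.symm (s i k)).elim 1 (stpT TT) : W)).prod := by
      intro i
      unfold walk
      rw [← Subgroup.coe_subtype, map_list_prod, List.map_ofFn]
      congr 2
      funext k
      simp only [Function.comp_apply, Subgroup.coe_subtype]
      rw [← eS_val, Equiv.apply_symm_apply]
    have h3 : ((FreeGroup.lift (fun i => walk (s i)) w5 : K) : W) =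
        FreeGroup.lift (fun i => ((walk (s i) : K) : W)) w5 := by
      rw [← Subgroup.coe_subtype, ← MonoidHom.comp_apply]
      congr 1
      refine FreeGroup.ext_hom _ _ fun i => ?_
      rw [MonoidHom.comp_apply, FreeGroup.lift_apply_of, FreeGroup.lift_apply_of]
    constructor
    · intro h
      change FreeGroup.lift (fun i => (List.ofFn fun k =>
        ((eS.symm (s i k)).elim 1 (stpT TT) : W)).prod) w5 = 1
      rw [← funext h2, ← h3, h]
      rfl
    · intro h
      change FreeGroup.lift (fun i => (List.ofFn fun k =>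
        ((eS.symm (s i k)).elim 1 (stpT TT) : W)).prod) w5 = 1 at h
      rw [← funext h2, ← h3] at h
      exact Subtype.ext h
  have h4 : (Nat.card (Fin 5 → Fin n → ↥(insert 1 S : Set K)) : ℝ) =
      (Fintype.card (Option (SigT TT)) : ℝ) ^ (5 * n) := by
    have : Nat.card (Fin 5 → Fin n → ↥(insert 1 S : Set K)) =
        Nat.card (Fin 5 → Fin n → Option (SigT TT)) :=
      Nat.card_congr (Equiv.piCongrRight fun _ => Equiv.piCongrRight fun _ => eS.symm)
    rw [this, Nat.card_eq_fintype_card, Fintype.card_fun, Fintype.card_fun, Fintype.card_fin,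
      Fintype.card_fin, ← pow_mul, mul_comm n 5]
    push_cast
    rfl
  unfold prob DT
  rw [h1, h4, Pool.Agent.R901.WR.Dist.lawProb_unif]

lemma prob_le_one (n : ℕ) : prob S w5 n ≤ 1 := by
  unfold prob
  have : Finite ↥(insert 1 S : Set K) := Finite.of_equiv _ eS
  refine div_le_one_of_le₀ ?_ (by positivity)
  exact_mod_cast Finite.card_subtype_le _

end

open Pool.Agent.N75.LW Pool.Agent.R901.WR in
/-- **Negative answer to Q1.** There are a word `w` in five letters and a group `G` with a finite
symmetric generating set `S` such that `p_n(w) → 1` for the lazy random walk (at rate `1 / n`),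
while `w` is not a law of `G`; no subgroup of finite index of `G` satisfies `w` either. -/
theorem result : ∃ (w : FreeGroup (Fin 5)) (G : Type) (_ : Group G) (S : Set G),
    S.Finite ∧ (∀ s ∈ S, s⁻¹ ∈ S) ∧ Subgroup.closure S = ⊤ ∧
    Tendsto (prob S w) atTop (𝓝 1) ∧
    (∀ n : ℕ, 1 - 3072 / ((n : ℝ) + 1) ≤ prob S w n) ∧
    (∃ g : Fin 5 → G, FreeGroup.lift g w ≠ 1) ∧
    ∀ H : Subgroup G, H.FiniteIndex →
      ∃ g : Fin 5 → G, (∀ i, g i ∈ H) ∧ FreeGroup.lift g w ≠ 1 := by
  have hfin : ∀ H : Subgroup K, H.FiniteIndex →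
      ∃ g : Fin 5 → K, (∀ i, g i ∈ H) ∧ FreeGroup.lift g w5 ≠ 1 := by
    intro H hH
    obtain ⟨m, hm, hpow⟩ : ∃ m : ℕ, 0 < m ∧ ∀ g : K, g ^ m ∈ H := by
      refine ⟨H.index.factorial, Nat.factorial_pos _, fun g => ?_⟩
      exact Subgroup.pow_mem_of_index_ne_zero_of_dvd hH.index_ne_zero g
        fun k hk hk' => Nat.dvd_factorial hk hk'
    set a : K := ⟨Wr.lamp (up 1), lamp_mem TT_up⟩ with ha
    set b : K := ⟨Wr.lamp (lo 1), lamp_mem TT_lo⟩ with hb
    set t : K := ⟨Wr.tr tau, tr_mem⟩ with ht
    refine ⟨![a ^ m, t ^ m, b ^ m, t ^ m, 1], ?_, ?_⟩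
    · intro i
      fin_cases i
      · exact hpow _
      · exact hpow _
      · exact hpow _
      · exact hpow _
      · exact H.one_mem
    · intro h
      rw [lift_w5] at h
      have hlp : ∀ (x : SL2) (k : ℕ), (Wr.lamp x : W) ^ k = Wr.lamp (x ^ k) := by
        intro x k
        induction k with
        | zero => simp [Wr.lamp_one]
        | succ k ih => rw [pow_succ, ih, ← Wr.lamp_mul, ← pow_succ]
      have htp : ∀ k : ℕ, (Wr.tr tau : W) ^ k = Wr.tr (k • tau) := by
        intro k
        induction k with
        | zero => simp [Wr.tr_zero]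
        | succ k ih => rw [pow_succ, ih, ← Wr.tr_add, succ_nsmul]
      have h1 := congrArg (fun x : K => (x : W)) h
      simp only [one_mul, mul_one, inv_one] at h1
      have h2 : (⁅⁅(Wr.lamp (up 1 ^ m) : W), (Wr.tr (m • tau) : W)⁆,
          ⁅(Wr.lamp (lo 1 ^ m) : W), (Wr.tr (m • tau) : W)⁆⁆ : W) = 1 := by
        rw [← hlp, ← hlp, ← htp]
        exact h1
      rw [Wr.comm_eq_one_iff (Wr.comm_s _ _) (Wr.comm_s _ _)] at h2
      have h3 := h2 0
      have hne : ¬ (0 : Fin 6 → ℤ) - m • tau = 0 := by
        intro h4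
        have h5 := congrFun h4 0
        simp [tau, sgv, sg] at h5
        omega
      have hne' : ¬ (0 : Fin 6 → ℤ) = m • tau := by
        intro h4
        exact hne (by rw [← h4]; simp)
      rw [Wr.comm_f, Wr.comm_f] at h3
      simp only [Wr.lamp_f, Wr.lamp_s, Wr.tr_s, Wr.tr_f, if_true, if_neg hne, inv_one, mul_one]
        at h3
      rw [commutatorElement_eq_one_iff_mul_comm] at h3
      exact not_comm hm h3
  refine ⟨w5, K, inferInstance, S, S_finite, S_inv, S_gen, ?_, ?_, ?_, hfin⟩
  · have h0 : Tendsto (fun n : ℕ => 1 - 3072 / ((n : ℝ) + 1)) atTop (𝓝 1) := by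
      have h1 : Tendsto (fun n : ℕ => (3072 : ℝ) * (1 / ((n : ℝ) + 1))) atTop (𝓝 (3072 * 0)) :=
        tendsto_one_div_add_atTop_nhds_zero_nat.const_mul _
      have h2 := h1.const_sub (1 : ℝ)
      simpa [div_eq_mul_inv] using h2
    refine tendsto_of_tendsto_of_tendsto_of_le_of_le h0 tendsto_const_nhds ?_ prob_le_one
    intro n
    have := DT_bound TT TT_one n
    rw [← prob_eq] at this
    simp only
    linarith
  · intro n
    have := DT_bound TT TT_one n
    rw [← prob_eq] at this
    linarith
  · obtain ⟨g, -, hg⟩ := hfin ⊤ inferInstance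
    exact ⟨g, hg⟩

end Pool.Agent.Results.MP_ffcf77_al.LimitOneNotALaw
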